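import Pool.Agent.H586.AF.B

/-!
# Task AF-G2: the intertwining relation, component 2
-/

set_option autoImplicit false
set_option linter.unusedVariables false

open Matrix Finset

namespace Pool.Agent.H169.AF

open Pool.Agent.H586.AF

noncomputable section

section k4
variable {R : Type} [CommRing R] {a b c d a' b' c' d' a'' b'' c'' d'' : Type}

theorem k4_eq (A : Matrix a a' R) (B : Matrix b b' R) (C : Matrix c c' R) (D : Matrix d d' R) :
    k4 A B C D = kroneckerMap (· * ·) A (kroneckerMap (· * ·) B (kroneckerMap (· * ·) C D)) := by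
  ext x y
  simp only [k4, kroneckerMap_apply]
  ring

theorem k4_mul [Fintype a'] [Fintype b'] [Fintype c'] [Fintype d']
    (A : Matrix a a' R) (B : Matrix b b' R) (C : Matrix c c' R) (D : Matrix d d' R)
    (A' : Matrix a' a'' R) (B' : Matrix b' b'' R) (C' : Matrix c' c'' R) (D' : Matrix d' d'' R) :
    k4 A B C D * k4 A' B' C' D' = k4 (A * A') (B * B') (C * C') (D * D') := by
  rw [k4_eq, k4_eq, k4_eq, ← mul_kronecker_mul, ← mul_kronecker_mul, ← mul_kronecker_mul]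

theorem k4_conj {a b c d a' b' c' d' : Type} (A : Matrix a a' ℂ) (B : Matrix b b' ℂ)
    (C : Matrix c c' ℂ) (D : Matrix d d' ℂ) : (k4 A B C D)ᴴ = k4 Aᴴ Bᴴ Cᴴ Dᴴ := by
  ext x y
  simp only [k4, conjTranspose_apply, star_mul']

end k4

theorem phs_mul {n : ℕ} (θ s s' x0 : ℝ) :
    (phs θ s x0 : Matrix (Fin n) (Fin n) ℂ) * phs θ s' x0 = phs θ (s + s') x0 := by
  unfold phs
  rw [diagonal_mul_diagonal]
  congr 1
  funext i
  rw [← Complex.exp_add]
  congr 1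
  push_cast
  ring

theorem phs_conj {n : ℕ} (θ s x0 : ℝ) :
    (phs θ s x0 : Matrix (Fin n) (Fin n) ℂ)ᴴ = phs θ (-s) x0 := by
  unfold phs
  rw [diagonal_conjTranspose]
  congr 1
  funext i
  rw [Pi.star_apply, Complex.star_def, ← Complex.exp_conj]
  congr 1
  rw [map_mul, Complex.conj_I, Complex.conj_ofReal]
  push_cast
  ring

theorem phs_neg {n : ℕ} (θ s x0 : ℝ) :
    (phs (-θ) s x0 : Matrix (Fin n) (Fin n) ℂ) = phs θ (-s) x0 := by
  unfold phs
  congr 1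
  funext i
  congr 1
  push_cast
  ring

/-- the complex Laplacian -/
abbrev Dc (L : ℕ) : Matrix (Fin (L - 1)) (Fin (L - 1)) ℂ := cx (lDD L)
/-- the phases on the sites -/
abbrev vp (L : ℕ) (θ s : ℝ) : Matrix (Fin (L - 1)) (Fin (L - 1)) ℂ := phs θ s 1
/-- the phases on the links -/
abbrev wp (L : ℕ) (θ s : ℝ) : Matrix (Fin L) (Fin L) ℂ := phs θ s (1 / 2)
/-- the incidence matrix -/
abbrev dc (L : ℕ) : Matrix (Fin L) (Fin (L - 1)) ℂ := cx (dm L (L - 1))
/-- the adjoint of the sum matrix -/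
abbrev nc (L : ℕ) : Matrix (Fin (L - 1)) (Fin L) ℂ := Matrix.conjTranspose (cx (nm L (L - 1)))

theorem vp_neg (L : ℕ) (θ s : ℝ) : vp L (-θ) s = vp L θ (-s) := phs_neg θ s 1

theorem wp_neg (L : ℕ) (θ s : ℝ) : wp L (-θ) s = wp L θ (-s) := phs_neg θ s (1 / 2)

/-- the sum matrix -/
abbrev nC (L : ℕ) : Matrix (Fin L) (Fin (L - 1)) ℂ := cx (nm L (L - 1))

/-- sums with an indicator -/
theorem sum_e0 {L : ℕ} (i : Fin (L - 1)) (f : Fin L → ℂ) (hi : (i : ℕ) < L) :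
    ∑ j : Fin L, (if (i : ℕ) = j then (1 : ℂ) else 0) * f j = f ⟨i, hi⟩ := by
  rw [Finset.sum_eq_single (⟨i, hi⟩ : Fin L)]
  · rw [if_pos rfl, one_mul]
  · intro j _ hj
    rw [if_neg, zero_mul]
    intro h
    exact hj (Fin.ext h.symm)
  · intro h
    exact absurd (Finset.mem_univ _) h

theorem sum_e1 {L : ℕ} (i : Fin (L - 1)) (f : Fin L → ℂ) (hi : (i : ℕ) + 1 < L) :
    ∑ j : Fin L, (if (i : ℕ) + 1 = j then (1 : ℂ) else 0) * f j = f ⟨i + 1, hi⟩ := by
  rw [Finset.sum_eq_single (⟨i + 1, hi⟩ : Fin L)]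
  · rw [if_pos rfl, one_mul]
  · intro j _ hj
    rw [if_neg, zero_mul]
    intro h
    exact hj (Fin.ext h.symm)
  · intro h
    exact absurd (Finset.mem_univ _) h

theorem cx_dm (L : ℕ) : cx (dm L (L - 1)) = e0 L (L - 1) - e1 L (L - 1) := by
  ext j i
  simp only [cx, map_apply, dm, e0, e1, Matrix.sub_apply]
  split_ifs <;> push_cast <;> ring

theorem cx_nm (L : ℕ) : cx (nm L (L - 1)) = e0 L (L - 1) + e1 L (L - 1) := by
  ext j i
  simp only [cx, map_apply, nm, e0, e1, Matrix.add_apply]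
  split_ifs <;> push_cast <;> ring

/-- the entries of the Laplacian -/
theorem lDD_apply (L : ℕ) (i k : Fin (L - 1)) : (cx (lDD L)) i k =
    2 * (if (k : ℕ) = i then 1 else 0) - (if (k : ℕ) + 1 = i then 1 else 0)
      - (if (k : ℕ) = i + 1 then 1 else 0) := by
  have hi : (i : ℕ) < L := by have := i.2; omega
  have hi1 : (i : ℕ) + 1 < L := by have := i.2; omega
  have h1 : cx (lDD L) = (cx (dm L (L - 1)))ᵀ * cx (dm L (L - 1)) := by
    unfold lDD
    ext x y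
    simp only [cx, map_apply, mul_apply, transpose_apply]
    push_cast
    rfl
  rw [h1, mul_apply]
  have h2 : ∀ j : Fin L, (cx (dm L (L - 1)))ᵀ i j * cx (dm L (L - 1)) j k =
      (if (i : ℕ) = j then (1 : ℂ) else 0) * cx (dm L (L - 1)) j k -
        (if (i : ℕ) + 1 = j then (1 : ℂ) else 0) * cx (dm L (L - 1)) j k := by
    intro j
    rw [transpose_apply, cx_dm, Matrix.sub_apply, e0, e1]
    simp only [Matrix.sub_apply]
    ring
  rw [Finset.sum_congr rfl fun j _ => h2 j, Finset.sum_sub_distrib, sum_e0 i _ hi, sum_e1 i _ hi1,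
    cx_dm, Matrix.sub_apply, Matrix.sub_apply]
  simp only [e0, e1, Nat.add_right_cancel_iff]
  ring

/-- the entries of the coupling -/
theorem nwd_apply (L : ℕ) (u : Fin L → ℂ) (i k : Fin (L - 1)) (hi : (i : ℕ) < L)
    (hi1 : (i : ℕ) + 1 < L) :
    (nc L * diagonal u * dc L) i k =
      u ⟨i, hi⟩ * ((if (k : ℕ) = i then 1 else 0) - (if (k : ℕ) + 1 = i then 1 else 0)) +
      u ⟨i + 1, hi1⟩ * ((if (k : ℕ) = i + 1 then 1 else 0) - (if (k : ℕ) = i then 1 else 0)) := by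
  rw [mul_apply]
  have h2 : ∀ j : Fin L, (nc L * diagonal u) i j * cx (dm L (L - 1)) j k =
      (if (i : ℕ) = j then (1 : ℂ) else 0) * (u j * cx (dm L (L - 1)) j k) +
        (if (i : ℕ) + 1 = j then (1 : ℂ) else 0) * (u j * cx (dm L (L - 1)) j k) := by
    intro j
    have h4 : nc L i j = star (cx (nm L (L - 1)) j i) := rfl
    rw [mul_diagonal, h4, cx_nm, Matrix.add_apply, e0, e1]
    have h3 : star ((if (i : ℕ) = j then (1 : ℂ) else 0) + (if (i : ℕ) + 1 = j then 1 else 0)) =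
        (if (i : ℕ) = j then (1 : ℂ) else 0) + (if (i : ℕ) + 1 = j then 1 else 0) := by
      split_ifs <;> simp
    rw [h3]
    ring
  rw [Finset.sum_congr rfl fun j _ => h2 j, Finset.sum_add_distrib, sum_e0 i _ hi, sum_e1 i _ hi1,
    cx_dm, Matrix.sub_apply, Matrix.sub_apply]
  simp only [e0, e1, Nat.add_right_cancel_iff]

/-- the relation in the direction 1 -/
theorem dir1 (L : ℕ) (θ : ℝ) (i k : Fin (L - 1)) :
    (Dc L * vp L θ (1 / 2)) i k = (vp L θ (1 / 2) * Dc L) i k +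
      kap θ * (vp L θ (1 / 2)) i k -
      (2 * Complex.I * (Real.sin (θ / 4) : ℝ)) *
        (nc L * wp L θ (1 / 2) * dc L) i k := by
  have hi : (i : ℕ) < L := by have := i.2; omega
  have hi1 : (i : ℕ) + 1 < L := by have := i.2; omega
  set z : ℂ := Complex.exp (Complex.I * (θ / 4 : ℝ)) with hz
  have hz0 : z ≠ 0 := Complex.exp_ne_zero _
  have hzi : z⁻¹ = Complex.exp (-(Complex.I * (θ / 4 : ℝ))) := by rw [hz, Complex.exp_neg]
  set w : ℂ := Complex.exp (Complex.I * (θ * (1 / 2) * (((i : ℕ) : ℝ) + 1 / 2) : ℝ)) with hw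
  have hc : 2 * Complex.I * (Real.sin (θ / 4) : ℝ) = z - z⁻¹ := by
    rw [hzi, hz, Complex.ofReal_sin, Complex.sin]
    have h1 : (((θ / 4 : ℝ) : ℂ)) * Complex.I = Complex.I * (θ / 4 : ℝ) := mul_comm _ _
    have h2 : -(((θ / 4 : ℝ) : ℂ)) * Complex.I = -(Complex.I * (θ / 4 : ℝ)) := by ring
    rw [h1, h2]
    linear_combination (Complex.exp (-(Complex.I * (θ / 4 : ℝ))) -
      Complex.exp (Complex.I * (θ / 4 : ℝ))) * Complex.I_mul_I
  have hk : kap θ = 2 - z ^ 2 - (z⁻¹) ^ 2 := by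
    have h1 : kap θ = -(2 * Complex.I * (Real.sin (θ / 4) : ℝ)) ^ 2 := by
      have h2 : Real.cos (θ / 2) = 1 - 2 * Real.sin (θ / 4) ^ 2 := by
        have h3 : θ / 2 = 2 * (θ / 4) := by ring
        rw [h3, Real.cos_two_mul, Real.cos_sq']
        ring
      unfold kap
      rw [h2]
      push_cast
      linear_combination (4 * (Complex.sin (θ / 4)) ^ 2) * Complex.I_sq
    rw [h1, hc]
    have h2 : z * z⁻¹ = 1 := mul_inv_cancel₀ hz0
    linear_combination 2 * h2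
  have hv : ∀ k : Fin (L - 1), (vp L θ (1 / 2)) i k =
      if i = k then w * z else 0 := by
    intro k
    unfold vp phs
    rw [diagonal_apply]
    by_cases h : i = k
    · rw [if_pos h, if_pos h, hw, hz, ← Complex.exp_add]
      congr 1
      push_cast
      ring
    · rw [if_neg h, if_neg h]
  have hA : (Dc L * vp L θ (1 / 2)) i k = cx (lDD L) i k *
      Complex.exp (Complex.I * (θ * (1 / 2) * (((k : ℕ) : ℝ) + 1) : ℝ)) := by
    unfold vp phs
    rw [mul_diagonal]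
  have hB : (vp L θ (1 / 2) * Dc L) i k = w * z * cx (lDD L) i k := by
    unfold vp phs
    rw [diagonal_mul]
    congr 1
    rw [hw, hz, ← Complex.exp_add]
    congr 1
    push_cast
    ring
  have hC : (nc L * wp L θ (1 / 2) * dc L) i k =
      w * ((if (k : ℕ) = i then 1 else 0) - (if (k : ℕ) + 1 = i then 1 else 0)) +
      w * z ^ 2 * ((if (k : ℕ) = i + 1 then 1 else 0) - (if (k : ℕ) = i then 1 else 0)) := by
    unfold wp phs
    rw [nwd_apply L _ i k hi hi1]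
    congr 2
    rw [hw, hz, ← Complex.exp_nat_mul, ← Complex.exp_add]
    congr 1
    push_cast
    ring
  rw [hA, hB, hC, hv, hk, hc, lDD_apply]
  rcases eq_or_ne i k with h | h
  · subst h
    have e1 : ¬ ((i : ℕ) + 1 = i) := by omega
    have e2 : ¬ ((i : ℕ) = i + 1) := by omega
    simp only [if_true, if_neg e1, if_neg e2]
    have e3 : Complex.exp (Complex.I * (θ * (1 / 2) * (((i : ℕ) : ℝ) + 1) : ℝ)) = w * z := by
      rw [hw, hz, ← Complex.exp_add]
      congr 1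
      push_cast
      ring
    rw [e3]
    field_simp
    ring
  · have hne : ¬ ((k : ℕ) = i) := fun h' => h (Fin.ext h'.symm)
    rw [if_neg h, if_neg hne]
    by_cases h1 : (k : ℕ) + 1 = i
    · have e2 : ¬ ((k : ℕ) = i + 1) := by omega
      rw [if_pos h1, if_neg e2]
      have e3 : Complex.exp (Complex.I * (θ * (1 / 2) * (((k : ℕ) : ℝ) + 1) : ℝ)) = w * z⁻¹ := by
        rw [hw, hzi, ← Complex.exp_add]
        congr 1
        rw [← h1]
        push_cast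
        ring
      rw [e3]
      field_simp
      ring
    · by_cases h2 : (k : ℕ) = i + 1
      · rw [if_neg h1, if_pos h2]
        have e3 : Complex.exp (Complex.I * (θ * (1 / 2) * (((k : ℕ) : ℝ) + 1) : ℝ)) =
            w * z ^ 3 := by
          rw [hw, hz, ← Complex.exp_nat_mul, ← Complex.exp_add]
          congr 1
          rw [h2]
          push_cast
          ring
        rw [e3]
        field_simp
        ring
      · rw [if_neg h1, if_neg h2]
        ring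

/-- the relation in the direction 1, opposite phase -/
theorem dir1' (L : ℕ) (θ : ℝ) (i k : Fin (L - 1)) :
    (Dc L * vp L θ (-(1 / 2))) i k = (vp L θ (-(1 / 2)) * Dc L) i k +
      kap θ * (vp L θ (-(1 / 2))) i k +
      (2 * Complex.I * (Real.sin (θ / 4) : ℝ)) *
        (nc L * wp L θ (-(1 / 2)) * dc L) i k := by
  have h := dir1 L (-θ) i k
  rw [vp_neg, wp_neg] at h
  have h1 : kap (-θ) = kap θ := by
    unfold kap
    rw [neg_div, Real.cos_neg]
  have h2 : Real.sin (-θ / 4) = -Real.sin (θ / 4) := by rw [neg_div, Real.sin_neg]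
  rw [h1, h2] at h
  rw [h]
  push_cast
  ring

/-- the diagonal of the Laplacian on the sites -/
theorem lDD_diag (L : ℕ) (i : Fin (L - 1)) : ((lDD L i i : ℝ) : ℂ) = 2 := by
  have h := lDD_apply L i i
  have e1 : ¬ ((i : ℕ) + 1 = i) := by omega
  have e2 : ¬ ((i : ℕ) = i + 1) := by omega
  rw [if_pos rfl, if_neg e1, if_neg e2] at h
  have h1 : (cx (lDD L)) i i = ((lDD L i i : ℝ) : ℂ) := rfl
  rw [h1] at h
  rw [h]
  ring

/-- the diagonal of the Laplacian on the links -/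
theorem lNN_diag (L : ℕ) (hL : 2 ≤ L) (j : Fin L) : lNN L j j =
    (if (j : ℕ) < L - 1 then 1 else 0) + (if 1 ≤ (j : ℕ) then 1 else 0) := by
  have h0 : lNN L j j = ∑ i : Fin (L - 1), ((if (i : ℕ) = j then (1 : ℝ) else 0) +
      (if (i : ℕ) + 1 = j then (1 : ℝ) else 0)) := by
    unfold lNN
    rw [mul_apply]
    refine Finset.sum_congr rfl fun i _ => ?_
    rw [transpose_apply]
    simp only [dm]
    by_cases h1 : (i : ℕ) = j
    · have h2 : ¬ ((i : ℕ) + 1 = j) := by omega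
      rw [if_pos h1, if_neg h2]
      norm_num
    · by_cases h2 : (i : ℕ) + 1 = j
      · rw [if_neg h1, if_pos h2]
        norm_num
      · rw [if_neg h1, if_neg h2]
        norm_num
  rw [h0, Finset.sum_add_distrib]
  congr 1
  · by_cases h : (j : ℕ) < L - 1
    · rw [if_pos h, Finset.sum_eq_single (⟨j, h⟩ : Fin (L - 1))]
      · rw [if_pos rfl]
      · intro i _ hi
        rw [if_neg]
        intro h'
        exact hi (Fin.ext h')
      · intro h'
        exact absurd (Finset.mem_univ _) h'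
    · rw [if_neg h]
      refine Finset.sum_eq_zero fun i _ => ?_
      rw [if_neg]
      have := i.2
      omega
  · by_cases h : 1 ≤ (j : ℕ)
    · have hj : (j : ℕ) - 1 < L - 1 := by have := j.2; omega
      rw [if_pos h, Finset.sum_eq_single (⟨(j : ℕ) - 1, hj⟩ : Fin (L - 1))]
      · rw [if_pos]
        show (j : ℕ) - 1 + 1 = j
        omega
      · intro i _ hi
        rw [if_neg]
        intro h'
        apply hi
        apply Fin.ext
        show (i : ℕ) = (j : ℕ) - 1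
        omega
      · intro h'
        exact absurd (Finset.mem_univ _) h'
    · rw [if_neg h]
      refine Finset.sum_eq_zero fun i _ => ?_
      rw [if_neg]
      omega

/-- sums over the sites -/
theorem sum_s0 {L : ℕ} (j : Fin L) (f : Fin (L - 1) → ℂ) :
    ∑ k : Fin (L - 1), (if (k : ℕ) = j then (1 : ℂ) else 0) * f k =
      if h : (j : ℕ) < L - 1 then f ⟨j, h⟩ else 0 := by
  by_cases h : (j : ℕ) < L - 1
  · rw [dif_pos h, Finset.sum_eq_single (⟨j, h⟩ : Fin (L - 1))]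
    · rw [if_pos rfl, one_mul]
    · intro i _ hi
      rw [if_neg, zero_mul]
      intro h'
      exact hi (Fin.ext h')
    · intro h'
      exact absurd (Finset.mem_univ _) h'
  · rw [dif_neg h]
    refine Finset.sum_eq_zero fun i _ => ?_
    rw [if_neg, zero_mul]
    have := i.2
    omega

theorem sum_s1 {L : ℕ} (j : Fin L) (f : Fin (L - 1) → ℂ) (hj : (j : ℕ) - 1 < L - 1) :
    ∑ k : Fin (L - 1), (if (k : ℕ) + 1 = j then (1 : ℂ) else 0) * f k =
      if 1 ≤ (j : ℕ) then f ⟨(j : ℕ) - 1, hj⟩ else 0 := by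
  by_cases h : 1 ≤ (j : ℕ)
  · rw [if_pos h, Finset.sum_eq_single (⟨(j : ℕ) - 1, hj⟩ : Fin (L - 1))]
    · rw [if_pos, one_mul]
      show (j : ℕ) - 1 + 1 = j
      omega
    · intro i _ hi
      rw [if_neg, zero_mul]
      intro h'
      apply hi
      apply Fin.ext
      show (i : ℕ) = (j : ℕ) - 1
      omega
    · intro h'
      exact absurd (Finset.mem_univ _) h'
  · rw [if_neg h]
    refine Finset.sum_eq_zero fun i _ => ?_
    rw [if_neg, zero_mul]
    omega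

/-- the hopping matrices -/
abbrev tL (L : ℕ) : Matrix (Fin L) (Fin L) ℂ := cx (tm L)
abbrev tLt (L : ℕ) : Matrix (Fin L) (Fin L) ℂ := cx (tm L)ᵀ
abbrev E0 (L : ℕ) : Matrix (Fin L) (Fin (L - 1)) ℂ := e0 L (L - 1)
abbrev E1 (L : ℕ) : Matrix (Fin L) (Fin (L - 1)) ℂ := e1 L (L - 1)

theorem cx_tm (n : ℕ) (i j : Fin n) : cx (tm n) i j = if (j : ℕ) = i + 1 then 1 else 0 := by
  simp only [cx, map_apply, tm]
  split_ifs <;> simp

theorem cx_tmt (n : ℕ) (i j : Fin n) : cx (tm n)ᵀ i j = if (i : ℕ) = j + 1 then 1 else 0 := by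
  simp only [cx, map_apply, transpose_apply, tm]
  split_ifs <;> simp

theorem mul_E0 (L : ℕ) (M : Matrix (Fin L) (Fin L) ℂ) (j : Fin L) (i : Fin (L - 1))
    (hi : (i : ℕ) < L) : (M * E0 L) j i = M j ⟨i, hi⟩ := by
  rw [mul_apply, ← sum_e0 i (fun k => M j k) hi]
  refine Finset.sum_congr rfl fun k _ => ?_
  rw [mul_comm]
  rfl

theorem mul_E1 (L : ℕ) (M : Matrix (Fin L) (Fin L) ℂ) (j : Fin L) (i : Fin (L - 1))
    (hi : (i : ℕ) + 1 < L) : (M * E1 L) j i = M j ⟨i + 1, hi⟩ := by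
  rw [mul_apply, ← sum_e1 i (fun k => M j k) hi]
  refine Finset.sum_congr rfl fun k _ => ?_
  rw [mul_comm]
  rfl

theorem E0_mul (L : ℕ) (M : Matrix (Fin (L - 1)) (Fin (L - 1)) ℂ) (j : Fin L) (i : Fin (L - 1)) :
    (E0 L * M) j i = if h : (j : ℕ) < L - 1 then M ⟨j, h⟩ i else 0 := by
  rw [mul_apply, ← sum_s0 j (fun k => M k i)]
  rfl

theorem E1_mul (L : ℕ) (M : Matrix (Fin (L - 1)) (Fin (L - 1)) ℂ) (j : Fin L) (i : Fin (L - 1))
    (hj : (j : ℕ) - 1 < L - 1) :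
    (E1 L * M) j i = if 1 ≤ (j : ℕ) then M ⟨(j : ℕ) - 1, hj⟩ i else 0 := by
  rw [mul_apply, ← sum_s1 j (fun k => M k i) hj]
  rfl

theorem b3 (L : ℕ) (j : Fin L) (i : Fin (L - 1)) :
    (cx (tm L) * E0 L) j i = (E0 L * cx (tm (L - 1))) j i := by
  have hi : (i : ℕ) < L := by have := i.2; omega
  rw [mul_E0 L _ j i hi, E0_mul, cx_tm]
  by_cases h : (j : ℕ) < L - 1
  · rw [dif_pos h, cx_tm]
  · rw [dif_neg h, if_neg]
    have := i.2
    show ¬ ((i : ℕ) = j + 1)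
    omega

theorem b4 (L : ℕ) (j : Fin L) (i : Fin (L - 1)) :
    (cx (tm L)ᵀ * E1 L) j i = (E1 L * cx (tm (L - 1))ᵀ) j i := by
  have hi : (i : ℕ) + 1 < L := by have := i.2; omega
  have hj : (j : ℕ) - 1 < L - 1 := by have := j.2; have := i.2; omega
  rw [mul_E1 L _ j i hi, E1_mul L _ j i hj, cx_tmt, cx_tmt]
  show (if (j : ℕ) = i + 1 + 1 then (1 : ℂ) else 0) =
    if 1 ≤ (j : ℕ) then (if (j : ℕ) - 1 = i + 1 then 1 else 0) else 0
  by_cases h : 1 ≤ (j : ℕ)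
  · rw [if_pos h]
    by_cases h1 : (j : ℕ) = i + 1 + 1
    · rw [if_pos h1, if_pos (by omega)]
    · rw [if_neg h1, if_neg (by omega)]
  · rw [if_neg h, if_neg (by omega)]

/-- the diagonal matrices -/
abbrev dN (L : ℕ) : Matrix (Fin L) (Fin L) ℂ := Matrix.diagonal fun i => ((lNN L i i : ℝ) : ℂ)
abbrev dD (L : ℕ) : Matrix (Fin (L - 1)) (Fin (L - 1)) ℂ :=
  Matrix.diagonal fun i => ((lDD L i i : ℝ) : ℂ)

theorem b1 (L : ℕ) (hL : 2 ≤ L) (j : Fin L) (i : Fin (L - 1)) :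
    (dN L * E0 L) j i + (cx (tm L) * E1 L) j i =
      (E0 L * dD L) j i + (E1 L * cx (tm (L - 1))) j i := by
  have hi : (i : ℕ) + 1 < L := by have := i.2; omega
  have hj : (j : ℕ) - 1 < L - 1 := by have := j.2; omega
  rw [diagonal_mul, mul_E1 L _ j i hi, mul_diagonal, E1_mul L _ j i hj, cx_tm, cx_tm, lDD_diag,
    lNN_diag L hL]
  show _ * (if (i : ℕ) = j then (1 : ℂ) else 0) + (if (i : ℕ) + 1 = j + 1 then (1 : ℂ) else 0) =
    (if (i : ℕ) = j then (1 : ℂ) else 0) * 2 +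
      if 1 ≤ (j : ℕ) then (if (i : ℕ) = (j : ℕ) - 1 + 1 then 1 else 0) else 0
  by_cases h : (i : ℕ) = j
  · have h1 : (i : ℕ) + 1 = j + 1 := by omega
    have h2 : (j : ℕ) < L - 1 := by have := i.2; omega
    rw [if_pos h, if_pos h1, if_pos h2]
    by_cases h3 : 1 ≤ (j : ℕ)
    · rw [if_pos h3, if_pos h3, if_pos (by omega)]
      norm_num
    · rw [if_neg h3, if_neg h3]
      norm_num
  · have h1 : ¬ ((i : ℕ) + 1 = j + 1) := by omega
    rw [if_neg h, if_neg h1]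
    by_cases h3 : 1 ≤ (j : ℕ)
    · have h4 : ¬ ((i : ℕ) = (j : ℕ) - 1 + 1) := by omega
      rw [if_pos h3, if_pos h3, if_neg h4]
      norm_num
    · rw [if_neg h3, if_neg h3]
      norm_num

theorem b2 (L : ℕ) (hL : 2 ≤ L) (j : Fin L) (i : Fin (L - 1)) :
    (dN L * E1 L) j i + (cx (tm L)ᵀ * E0 L) j i =
      (E1 L * dD L) j i + (E0 L * cx (tm (L - 1))ᵀ) j i := by
  have hi : (i : ℕ) < L := by have := i.2; omega
  rw [diagonal_mul, mul_E0 L _ j i hi, mul_diagonal, E0_mul L _ j i, cx_tmt, lDD_diag,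
    lNN_diag L hL]
  have h4 : (if h : (j : ℕ) < L - 1 then cx (tm (L - 1))ᵀ ⟨j, h⟩ i else 0) =
      if (j : ℕ) < L - 1 then (if (j : ℕ) = i + 1 then (1 : ℂ) else 0) else 0 := by
    by_cases h : (j : ℕ) < L - 1
    · rw [dif_pos h, if_pos h, cx_tmt]
    · rw [dif_neg h, if_neg h]
  rw [h4]
  show _ * (if (i : ℕ) + 1 = j then (1 : ℂ) else 0) + (if (j : ℕ) = i + 1 then (1 : ℂ) else 0) =
    (if (i : ℕ) + 1 = j then (1 : ℂ) else 0) * 2 +
      if (j : ℕ) < L - 1 then (if (j : ℕ) = i + 1 then (1 : ℂ) else 0) else 0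
  by_cases h : (i : ℕ) + 1 = j
  · have h1 : (j : ℕ) = i + 1 := h.symm
    have h2 : 1 ≤ (j : ℕ) := by omega
    rw [if_pos h, if_pos h1, if_pos h2]
    by_cases h3 : (j : ℕ) < L - 1
    · rw [if_pos h3, if_pos h3]
      norm_num
    · rw [if_neg h3, if_neg h3]
      norm_num
  · have h1 : ¬ ((j : ℕ) = i + 1) := fun h' => h h'.symm
    rw [if_neg h, if_neg h1]
    by_cases h3 : (j : ℕ) < L - 1
    · rw [if_pos h3]
      norm_num
    · rw [if_neg h3]
      norm_num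

/-- the adjoint of the block `12` -/
theorem m12_conj (L : ℕ) (θ : ℝ) : (m12 L θ)ᴴ =
    (2 * Complex.I * (Real.sin (θ / 4) : ℝ)) •
      (k4 (nc L * wp L θ (-(1 / 2))) (E1 L) 1 1 + k4 (nc L * wp L θ (1 / 2)) (E0 L) 1 1) := by
  have h0 : ∀ M : Matrix (Fin L) (Fin (L - 1)) ℂ, (∀ i j, star (M i j) = M i j) →
      (Mᵀ)ᴴ = M := by
    intro M hM
    ext i j
    rw [conjTranspose_apply, transpose_apply, hM]
  have h1 : (E1 L)ᵀᴴ = E1 L := h0 _ (by
    intro i j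
    simp only [E1, e1]
    split_ifs <;> simp)
  have h2 : (E0 L)ᵀᴴ = E0 L := h0 _ (by
    intro i j
    simp only [E0, e0]
    split_ifs <;> simp)
  have h3 : (wp L θ (1 / 2) * nC L)ᴴ = nc L * wp L θ (-(1 / 2)) := by
    rw [conjTranspose_mul, phs_conj]
  have h4 : (wp L θ (-(1 / 2)) * nC L)ᴴ = nc L * wp L θ (1 / 2) := by
    rw [conjTranspose_mul, phs_conj, neg_neg]
  have h5 : star (-(2 * Complex.I * (Real.sin (θ / 4) : ℝ))) =
      2 * Complex.I * (Real.sin (θ / 4) : ℝ) := by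
    rw [Complex.star_def, map_neg, map_mul, map_mul, Complex.conj_I, Complex.conj_ofReal]
    have : (starRingEnd ℂ) 2 = 2 := by
      rw [Complex.conj_ofNat]
    rw [this]
    ring
  have hm : m12 L θ = (-(2 * Complex.I * (Real.sin (θ / 4) : ℝ))) •
      (k4 (wp L θ (1 / 2) * nC L) (E1 L)ᵀ 1 1 + k4 (wp L θ (-(1 / 2)) * nC L) (E0 L)ᵀ 1 1) := rfl
  rw [hm, conjTranspose_smul, conjTranspose_add, k4_conj, k4_conj, h5]
  rw [h3, h4, h1, h2, conjTranspose_one, conjTranspose_one]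

theorem tg2 : S_G2 := by
  intro L hL θ
  have hg1 : g1 L = k4 (dc L) 1 1 1 := rfl
  have hg2 : g2 L θ = k4 (vp L θ (1 / 2)) (E0 L) 1 1 - k4 (vp L θ (-(1 / 2))) (E1 L) 1 1 := rfl
  have hm : m22 L θ = k4 (Dc L) 1 1 1 + k4 1 (dN L) 1 1 - k4 (vp L θ 1) (tL L) 1 1
      - k4 (vp L θ (-1)) (tLt L) 1 1 + k4 1 1 (Dc L) 1 + k4 1 1 1 (cx (lDN L))
      - kap θ • (1 : Matrix (I2 L) (I2 L) ℂ) := rfl
  have hl : lap L θ = k4 (Dc L) 1 1 1 + k4 1 (dD L) 1 1 - k4 (vp L θ 1) (tL (L - 1)) 1 1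
      - k4 (vp L θ (-1)) (tLt (L - 1)) 1 1 + k4 1 1 (Dc L) 1 + k4 1 1 1 (cx (lDN L)) := rfl
  have p1 : vp L θ 1 * vp L θ (-(1 / 2)) = vp L θ (1 / 2) := by
    rw [phs_mul]; norm_num
  have p2 : vp L θ (-1) * vp L θ (1 / 2) = vp L θ (-(1 / 2)) := by
    rw [phs_mul]; norm_num
  have p3 : vp L θ (-(1 / 2)) * vp L θ 1 = vp L θ (1 / 2) := by
    rw [phs_mul]; norm_num
  have p4 : vp L θ (1 / 2) * vp L θ (-1) = vp L θ (-(1 / 2)) := by
    rw [phs_mul]; norm_num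
  have p5 : vp L θ (1 / 2) * vp L θ 1 = vp L θ 1 * vp L θ (1 / 2) := by
    rw [phs_mul, phs_mul, add_comm]
  have p6 : vp L θ (-(1 / 2)) * vp L θ (-1) = vp L θ (-1) * vp L θ (-(1 / 2)) := by
    rw [phs_mul, phs_mul, add_comm]
  have l1 : (m12 L θ)ᴴ * g1 L = (2 * Complex.I * (Real.sin (θ / 4) : ℝ)) •
      (k4 (nc L * wp L θ (-(1 / 2)) * dc L) (E1 L) 1 1 +
        k4 (nc L * wp L θ (1 / 2) * dc L) (E0 L) 1 1) := by
    rw [m12_conj, hg1, Matrix.smul_mul, Matrix.add_mul, k4_mul, k4_mul]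
    simp only [Matrix.mul_one]
  have l2 : m22 L θ * g2 L θ = k4 (Dc L * vp L θ (1 / 2)) (E0 L) 1 1
      - k4 (Dc L * vp L θ (-(1 / 2))) (E1 L) 1 1
      + k4 (vp L θ (1 / 2)) (dN L * E0 L) 1 1 - k4 (vp L θ (-(1 / 2))) (dN L * E1 L) 1 1
      - k4 (vp L θ 1 * vp L θ (1 / 2)) (tL L * E0 L) 1 1 + k4 (vp L θ (1 / 2)) (tL L * E1 L) 1 1
      - k4 (vp L θ (-(1 / 2))) (tLt L * E0 L) 1 1
      + k4 (vp L θ (-1) * vp L θ (-(1 / 2))) (tLt L * E1 L) 1 1
      + k4 (vp L θ (1 / 2)) (E0 L) (Dc L) 1 - k4 (vp L θ (-(1 / 2))) (E1 L) (Dc L) 1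
      + k4 (vp L θ (1 / 2)) (E0 L) 1 (cx (lDN L)) - k4 (vp L θ (-(1 / 2))) (E1 L) 1 (cx (lDN L))
      - kap θ • (k4 (vp L θ (1 / 2)) (E0 L) 1 1 - k4 (vp L θ (-(1 / 2))) (E1 L) 1 1) := by
    rw [hm, hg2]
    simp only [Matrix.sub_mul, Matrix.add_mul, Matrix.mul_sub, k4_mul, Matrix.mul_one,
      Matrix.one_mul, Matrix.smul_mul, p1, p2, smul_sub]
    abel
  have l3 : g2 L θ * lap L θ = k4 (vp L θ (1 / 2) * Dc L) (E0 L) 1 1
      - k4 (vp L θ (-(1 / 2)) * Dc L) (E1 L) 1 1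
      + k4 (vp L θ (1 / 2)) (E0 L * dD L) 1 1 - k4 (vp L θ (-(1 / 2))) (E1 L * dD L) 1 1
      - k4 (vp L θ 1 * vp L θ (1 / 2)) (E0 L * tL (L - 1)) 1 1
      + k4 (vp L θ (1 / 2)) (E1 L * tL (L - 1)) 1 1
      - k4 (vp L θ (-(1 / 2))) (E0 L * tLt (L - 1)) 1 1
      + k4 (vp L θ (-1) * vp L θ (-(1 / 2))) (E1 L * tLt (L - 1)) 1 1
      + k4 (vp L θ (1 / 2)) (E0 L) (Dc L) 1 - k4 (vp L θ (-(1 / 2))) (E1 L) (Dc L) 1
      + k4 (vp L θ (1 / 2)) (E0 L) 1 (cx (lDN L))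
      - k4 (vp L θ (-(1 / 2))) (E1 L) 1 (cx (lDN L)) := by
    rw [hl, hg2]
    simp only [Matrix.sub_mul, Matrix.add_mul, Matrix.mul_sub, Matrix.mul_add, k4_mul,
      Matrix.mul_one, Matrix.one_mul, p3, p4, p5, p6]
    abel
  rw [l1, l2, l3]
  ext ⟨x1, x2, x3, x4⟩ ⟨y1, y2, y3, y4⟩
  have a1 := dir1 L θ x1 y1
  have a2 := dir1' L θ x1 y1
  have c1 := b1 L hL x2 y2
  have c2 := b2 L hL x2 y2
  have c3 := b3 L x2 y2
  have c4 := b4 L x2 y2
  simp only [Matrix.add_apply, Matrix.sub_apply, Matrix.smul_apply, k4, smul_eq_mul]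
  set δ : ℂ := (1 : Matrix (Fin (L - 1)) (Fin (L - 1)) ℂ) x3 y3 with hδ
  set δ' : ℂ := (1 : Matrix (Fin L) (Fin L) ℂ) x4 y4 with hδ'
  linear_combination (E0 L x2 y2 * δ * δ') * a1 - (E1 L x2 y2 * δ * δ') * a2 +
    (vp L θ (1 / 2) x1 y1 * δ * δ') * c1 - (vp L θ (-(1 / 2)) x1 y1 * δ * δ') * c2 -
    ((vp L θ 1 * vp L θ (1 / 2)) x1 y1 * δ * δ') * c3 +
    ((vp L θ (-1) * vp L θ (-(1 / 2))) x1 y1 * δ * δ') * c4

end

end Pool.Agent.H169.AF
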